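import Pool.Agent.Helper10.QRH.StC

/-! Project QRH, module C8d: class IV, large control primes, by the counting lemma. -/

set_option autoImplicit false
open Filter Topology
open scoped Classical

namespace Pool.Agent.Helper26.QRH

open Pool.Agent.Helper10.QRH

theorem decay (ν ε : ℝ) (hν : 0 < ν) (hε : 0 < ε) : ∃ K : ℕ, ∀ k : ℕ, K ≤ k →
    (k : ℝ) ^ 3 * (2 : ℝ) ^ (-(0.8 * ν * k)) ≤ ε / 2000 := by
  have hr0 : (0 : ℝ) < (2 : ℝ) ^ (-(0.8 * ν)) := Real.rpow_pos_of_pos (by norm_num) _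
  have hr1 : (2 : ℝ) ^ (-(0.8 * ν)) < 1 :=
    Real.rpow_lt_one_of_one_lt_of_neg (by norm_num) (by linarith)
  have ht := tendsto_pow_const_mul_const_pow_of_abs_lt_one 3
    (show |(2 : ℝ) ^ (-(0.8 * ν))| < 1 by rw [abs_of_pos hr0]; exact hr1)
  obtain ⟨K, hK⟩ := eventually_atTop.1 (ht.eventually (gt_mem_nhds (show 0 < ε / 2000 by
    positivity)))
  refine ⟨K, fun k hk => ?_⟩
  have := (hK k hk).le
  rw [← Real.rpow_natCast ((2 : ℝ) ^ (-(0.8 * ν))) k, ← Real.rpow_mul (by norm_num)] at this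
  rw [show -(0.8 * ν * (k : ℝ)) = -(0.8 * ν) * k by ring]
  exact this

theorem class4 (P : Par) (h0 : PhiFacts P) (hc : CellFacts P) (hd : CdFacts P)
    (h1 : SizeFacts P) (hw : WFacts P) (hz : WtSize P) (hcl : CL P) : Class4 P := by
  intro ε hε
  obtain ⟨K1, h1⟩ := h1
  obtain ⟨K2, hz⟩ := hz
  obtain ⟨K3, hcl⟩ := hcl
  obtain ⟨hν, hν1, -, -, -, hd', hs', hg, hg1, -⟩ := h0.small
  obtain ⟨K4, hK4⟩ := decay P.ν ε hν hε
  refine ⟨max (max K1 K2) (max (max K3 K4) 1), ?_⟩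
  intro k0 hk0 hFB S k hk j hj
  simp only [max_le_iff] at hk0
  obtain ⟨⟨hk1, hk2⟩, ⟨hk3, hk4⟩, hk5⟩ := hk0
  obtain ⟨s1, s2, s3, s4, s5, s6, s7, s8, s9⟩ := h1 k (by omega)
  obtain ⟨z1, z2, z3⟩ := hz k0 hk2 hFB S
  have hkpos : (1 : ℝ) ≤ k := by exact_mod_cast (show 1 ≤ k by omega)
  set F := (P.cell k j).filter (fun n => ∃ p, S.ctrl p ∧ p ∣ n ∧ (2 : ℝ) ^ ((k : ℝ) / 10) ≤ p ∧
      (¬ S.mo p ∣ n / p ∨ (Nat.log 2 (p * S.mo p) : ℝ) ≤ (1 - 7 * P.ν) * k ∨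
        (1 + 7 * P.ν) * k ≤ (Nat.log 2 (p * S.mo p) : ℝ))) with hF
  have hmem : ∀ n ∈ F, (2 ^ k + j * 2 ^ P.e k ≤ n ∧ n < 2 ^ k + j * 2 ^ P.e k + 2 ^ P.e k) ∧
      ∃ p, S.ctrl p ∧ p ∣ n ∧ (2 : ℝ) ^ ((k : ℝ) / 10) ≤ p ∧
      (¬ S.mo p ∣ n / p ∨ (Nat.log 2 (p * S.mo p) : ℝ) ≤ (1 - 7 * P.ν) * k ∨
        (1 + 7 * P.ν) * k ≤ (Nat.log 2 (p * S.mo p) : ℝ)) := by
    intro n hn
    rw [hF, Finset.mem_filter] at hn
    refine ⟨?_, hn.2⟩
    have := Finset.mem_Ico.1 hn.1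
    rw [show 2 ^ k + (j + 1) * 2 ^ P.e k = 2 ^ k + j * 2 ^ P.e k + 2 ^ P.e k by ring] at this
    exact this
  choose! q hq using fun n (hn : n ∈ F) => (hmem n hn).2
  -- the triples
  set T : Finset (ℕ × ℕ × ℕ) := F.image (fun n => (q n, S.mo (q n), n / q n)) with hT
  have hcard : T.card = F.card := by
    rw [hT]
    refine Finset.card_image_of_injOn ?_
    intro a ha b hb hab
    simp only [Prod.mk.injEq] at hab
    have e1 : q a * (a / q a) = a := Nat.mul_div_cancel' (hq a ha).2.1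
    have e2 : q b * (b / q b) = b := Nat.mul_div_cancel' (hq b hb).2.1
    rw [← e1, ← e2, hab.2.2, hab.1]
  have hx2 : 2 ^ k + j * 2 ^ P.e k + 2 ^ P.e k ≤ 2 ^ (k + 1) := by
    have h3 : (j + 1) * 2 ^ P.e k ≤ 2 ^ (k - P.e k) * 2 ^ P.e k := Nat.mul_le_mul_right _ hj
    rw [← pow_add, Nat.sub_add_cancel s2] at h3
    rw [pow_succ]
    nlinarith [h3]
  have hhle : (((2 ^ P.e k : ℕ) : ℕ) : ℝ) ≤ (2 : ℝ) ^ ((k : ℝ) / 2) := by
    push_cast
    refine s4.trans (Real.rpow_le_rpow_of_exponent_le (by norm_num) ?_)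
    have : 0 ≤ P.d * k := by rw [hd']; positivity
    nlinarith [this]
  have hTcard := hcl k0 hk3 hFB k hk (2 ^ k + j * 2 ^ P.e k) (2 ^ P.e k)
    (by omega) hx2 hhle (7 * P.ν) (0.02 * P.ν) (Or.inl ⟨rfl, rfl⟩) (by push_cast; exact s3) T (by
      intro y hy
      rw [hT, Finset.mem_image] at hy
      obtain ⟨n, hn, rfl⟩ := hy
      obtain ⟨c1, c2, c3, c4⟩ := hq n hn
      obtain ⟨-, -, -, d1, -⟩ := hw.ctrl_prime S c1
      obtain ⟨k'', hk'', d2, -⟩ := S.clean _ d1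
      have hb := hd.block d2
      simp only at hb
      have e1 : q n * (n / q n) = n := Nat.mul_div_cancel' c2
      refine ⟨k'', hk'', d2, ?_, ?_, c3, ?_⟩
      · simp only [e1]; exact (hmem n hn).1.1
      · simp only [e1]; exact (hmem n hn).1.2
      · rw [← hb]; exact c4)
  rw [hcard] at hTcard
  push_cast at hTcard
  -- weights
  have hexp : P.s - 1 + 4 * P.g ≤ 0 := by
    rw [hs']; linarith
  have hWW : ∀ n ∈ F, S.WW n ≤ (2 : ℝ) ^ ((P.s - 1) * k) * (2 : ℝ) ^ (0.004 * P.ν * k) := by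
    intro n hn
    have hn1 : 2 ^ k ≤ n := le_trans (by omega) (hmem n hn).1.1
    have hn1' : (2 : ℝ) ^ k ≤ n := by exact_mod_cast hn1
    refine (z3 n (le_trans Nat.one_le_two_pow hn1)).trans ?_
    refine (Real.rpow_le_rpow_of_nonpos (by positivity) hn1' hexp).trans ?_
    rw [← Real.rpow_natCast 2 k, ← Real.rpow_mul (by norm_num), ← Real.rpow_add (by norm_num)]
    refine Real.rpow_le_rpow_of_exponent_le (by norm_num) ?_
    nlinarith [hg1, hkpos]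
  have hG : P.Gk k = 1/2000 * 2 ^ P.e k * (2 : ℝ) ^ ((P.s - 1) * k) / k ^ 3 := rfl
  calc ∑ n ∈ F, S.WW n ≤ ∑ n ∈ F, (2 : ℝ) ^ ((P.s - 1) * k) * (2 : ℝ) ^ (0.004 * P.ν * k) :=
        Finset.sum_le_sum hWW
    _ = F.card * ((2 : ℝ) ^ ((P.s - 1) * k) * (2 : ℝ) ^ (0.004 * P.ν * k)) := by
        rw [Finset.sum_const, nsmul_eq_mul]
    _ ≤ ((2 : ℝ) ^ P.e k * (2 : ℝ) ^ (-(0.9 * P.ν * k))) *
          ((2 : ℝ) ^ ((P.s - 1) * k) * (2 : ℝ) ^ (0.004 * P.ν * k)) := by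
        refine mul_le_mul_of_nonneg_right hTcard (by positivity)
    _ = (2 : ℝ) ^ P.e k * (2 : ℝ) ^ ((P.s - 1) * k) *
          ((2 : ℝ) ^ (-(0.9 * P.ν * k)) * (2 : ℝ) ^ (0.004 * P.ν * k)) := by ring
    _ ≤ (2 : ℝ) ^ P.e k * (2 : ℝ) ^ ((P.s - 1) * k) * (2 : ℝ) ^ (-(0.8 * P.ν * k)) := by
        refine mul_le_mul_of_nonneg_left ?_ (by positivity)
        rw [← Real.rpow_add (by norm_num)]
        refine Real.rpow_le_rpow_of_exponent_le (by norm_num) ?_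
        have : 0 ≤ P.ν * k := by positivity
        nlinarith [this]
    _ ≤ (2 : ℝ) ^ P.e k * (2 : ℝ) ^ ((P.s - 1) * k) * (ε / 2000 / k ^ 3) := by
        refine mul_le_mul_of_nonneg_left ?_ (by positivity)
        rw [le_div_iff₀ (by positivity), mul_comm]
        exact hK4 k (by omega)
    _ = ε * P.Gk k := by
        rw [hG]; ring

end Pool.Agent.Helper26.QRH
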