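import Pool.Agent.Helper10.QRH.StC

/-! Project QRH, module C0d: the completely multiplicative majorant. -/

set_option autoImplicit false
open scoped Classical

namespace Pool.Agent.Helper26.QRH

open Pool.Agent.Helper10.QRH

variable {P : Par} {k0 : ℕ} (S : P.Sel k0)

theorem ww_mul {a b : ℕ} (ha : a ≠ 0) (hb : b ≠ 0) : S.WW (a * b) = S.WW a * S.WW b := by
  unfold Par.Sel.WW
  rw [((Nat.perm_primeFactorsList_mul ha hb).map S.wt).prod_eq, List.map_append,
    List.prod_append]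

theorem mo_mem {p : ℕ} (h : S.ctrl p) : (p, S.mo p) ∈ S.S := by
  have h' : ∃ m, (p, m) ∈ S.S := h
  unfold Par.Sel.mo
  rw [dif_pos h']
  exact h'.choose_spec

theorem ctrl_prime {p : ℕ} (h : S.ctrl p) : p.Prime ∧ P.cand k0 p ∧
    ¬ P.Ord k0 p ∧ (p, S.mo p) ∈ S.S ∧ ∀ m, (p, m) ∈ S.S → m = S.mo p := by
  have h1 := mo_mem S h
  obtain ⟨k, hk, hc, h2, h3⟩ := S.clean _ h1
  have hcand : P.cand k0 p := ⟨k, hk, S.mo p, hc⟩
  refine ⟨hc.1, hcand, fun ho => ho.2.2.2 hcand, h1, fun m hm => ?_⟩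
  obtain ⟨k', hk', hc', _, _⟩ := S.clean _ hm
  exact h3 k' hk' m hc'

theorem w_pos (h : PhiFacts P) (hk0 : 1 ≤ k0) {p : ℕ} (hp : S.ctrl p) : 0 < S.w p := by
  obtain ⟨k, hk, hc, _, _⟩ := S.clean _ (mo_mem S hp)
  have h1 : k ≤ Nat.log 2 (p * S.mo p) := by
    refine Nat.le_log_of_pow_le (by norm_num) ?_
    exact hc.2.2.1
  unfold Par.Sel.w
  exact div_pos (h.Wk_pos (by omega)) (h.lo_pos _)

theorem wt_nonneg (h : PhiFacts P) (hk0 : 1 ≤ k0) (p : ℕ) : 0 ≤ S.wt p := by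
  unfold Par.Sel.wt
  split_ifs with h1 h2
  · have := w_pos S h hk0 h1
    positivity
  · have h3 : (1 : ℝ) < p := by exact_mod_cast h2.1.one_lt
    exact (h.phi_pos h3).le
  · exact le_refl _

theorem ww_nonneg (h : PhiFacts P) (hk0 : 1 ≤ k0) (n : ℕ) : 0 ≤ S.WW n := by
  unfold Par.Sel.WW
  refine List.prod_nonneg fun x hx => ?_
  obtain ⟨p, _, rfl⟩ := List.mem_map.1 hx
  exact wt_nonneg S h hk0 p

theorem cp_facts {n : ℕ} (hn : n ≠ 0) :
    S.cp n ∣ n ∧ S.cp n ≠ 0 ∧ S.WW n = S.WW (S.cp n) * S.WW (n / S.cp n) ∧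
    (∀ p : ℕ, p.Prime → p ∣ S.cp n → S.ctrl p) ∧
    (∀ p : ℕ, p.Prime → p ∣ n / S.cp n → ¬ S.ctrl p) := by
  set L := n.primeFactorsList with hL
  set L1 := L.filter (fun p => S.ctrl p) with hL1
  set L2 := L.filter (fun p => !decide (S.ctrl p)) with hL2
  have hprime : ∀ p ∈ L, Nat.Prime p := fun p hp => Nat.prime_of_mem_primeFactorsList hp
  have hp1 : ∀ p ∈ L1, Nat.Prime p := fun p hp => hprime p (List.mem_of_mem_filter hp)
  have hp2 : ∀ p ∈ L2, Nat.Prime p := fun p hp => hprime p (List.mem_of_mem_filter hp)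
  have hcp : S.cp n = L1.prod := rfl
  have hperm : List.Perm (L1 ++ L2) L := List.filter_append_perm _ _
  have hprod : L1.prod * L2.prod = n := by
    rw [← List.prod_append, hperm.prod_eq, hL, Nat.prod_primeFactorsList hn]
  have h10 : L1.prod ≠ 0 := by
    intro h0
    rw [h0, zero_mul] at hprod
    exact hn hprod.symm
  have hdiv : n / S.cp n = L2.prod := by
    rw [hcp, ← hprod]
    exact Nat.mul_div_cancel_left _ (Nat.pos_of_ne_zero h10)
  have e1 : List.Perm L1 (S.cp n).primeFactorsList := Nat.primeFactorsList_unique rfl hp1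
  have e2 : List.Perm L2 (n / S.cp n).primeFactorsList :=
    Nat.primeFactorsList_unique hdiv.symm hp2
  refine ⟨⟨L2.prod, by rw [hcp, hprod]⟩, h10, ?_, ?_, ?_⟩
  · unfold Par.Sel.WW
    rw [← (e1.map S.wt).prod_eq, ← (e2.map S.wt).prod_eq, ← List.prod_append, ← List.map_append,
      (hperm.map S.wt).prod_eq]
  · intro p hp hd
    have : p ∈ (S.cp n).primeFactorsList := (Nat.mem_primeFactorsList h10).2 ⟨hp, hd⟩
    have := e1.symm.subset this
    rw [hL1, List.mem_filter] at this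
    simpa using this.2
  · intro p hp hd
    have h20 : n / S.cp n ≠ 0 := by
      intro h0
      rw [hdiv] at h0
      rw [h0, mul_zero] at hprod
      exact hn hprod.symm
    have : p ∈ (n / S.cp n).primeFactorsList := (Nat.mem_primeFactorsList h20).2 ⟨hp, hd⟩
    have := e2.symm.subset this
    rw [hL2, List.mem_filter] at this
    simpa using this.2

theorem ww_ne_zero {n : ℕ} (hn : n ≠ 0) (hW : S.WW n ≠ 0) {p : ℕ} (hp : p.Prime) (hd : p ∣ n) :
    S.ctrl p ∨ P.Ord k0 p := by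
  by_contra hc
  push Not at hc
  apply hW
  unfold Par.Sel.WW
  refine List.prod_eq_zero ?_
  rw [List.mem_map]
  refine ⟨p, (Nat.mem_primeFactorsList hn).2 ⟨hp, hd⟩, ?_⟩
  unfold Par.Sel.wt
  rw [if_neg hc.1, if_neg hc.2]

theorem wFacts (P : Par) (h : PhiFacts P) : WFacts P where
  WW_one := fun S => by simp [Par.Sel.WW]
  WW_mul := fun S _ _ ha hb => ww_mul S ha hb
  WW_prime := fun S p hp => by simp [Par.Sel.WW, Nat.primeFactorsList_prime hp]
  ctrl_prime := fun S _ hp => ctrl_prime S hp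
  w_pos := fun S hk _ hp => w_pos S h hk hp
  wt_nonneg := fun S hk p => wt_nonneg S h hk p
  WW_nonneg := fun S hk n => ww_nonneg S h hk n
  cp_facts := fun S _ hn => cp_facts S hn
  ne_zero := fun S _ hn hW _ hp hd => ww_ne_zero S hn hW hp hd

end Pool.Agent.Helper26.QRH
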